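import Mathlib
open MeasureTheory Polynomial Set Filter Topology
open scoped Interval

namespace Pool.Agent.Results.MP_57aba6_an.FourPoints

/-- All complex zeros of the derivative of the real polynomial `p` are (real) points of `X`. -/
def CritIn (X : Set ℝ) (p : ℝ[X]) : Prop :=
  ∀ z : ℂ, aeval z (derivative p) = 0 → ∃ x ∈ X, z = (x : ℂ)

/-- `CP X`: the uniform limits on `X` of real polynomials all of whose critical points lie in `X`. -/
def CP (X : Set ℝ) : Set C(X, ℝ) :=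
  {f | ∀ ε > 0, ∃ p : ℝ[X], CritIn X p ∧ ∀ x : X, |f x - p.eval (x : ℝ)| < ε}


/-- the cubic `x^3 - 3x` -/
noncomputable def T (x : ℝ) : ℝ := x ^ 3 - 3 * x
noncomputable def T' (x : ℝ) : ℝ := 3 * (x ^ 2 - 1)

lemma T_hasDeriv (x : ℝ) : HasDerivAt T (T' x) x := by
  have h := (hasDerivAt_pow 3 x).sub ((hasDerivAt_id x).const_mul 3)
  have h2 : HasDerivAt T (((3:ℕ):ℝ) * x ^ (3 - 1) - 3 * 1) x := h
  convert h2 using 1
  simp [T']; ring

lemma T_cont : Continuous T := by unfold T; fun_prop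
lemma T'_cont : Continuous T' := by unfold T'; fun_prop

noncomputable def Phi (a c : ℕ) (y : ℝ) : ℝ := (2 - y) ^ (2 * a) * (2 + y) ^ (2 * c)

lemma Phi_cont (a c : ℕ) : Continuous (Phi a c) := by unfold Phi; fun_prop

lemma Phi_nonneg (a c : ℕ) (y : ℝ) : 0 ≤ Phi a c y := by
  unfold Phi
  rw [pow_mul, pow_mul]
  positivity

noncomputable def D (a c : ℕ) : ℝ := ∫ y in (-2:ℝ)..2, Phi a c y

lemma D_pos (a c : ℕ) : 0 < D a c := by
  unfold D
  apply intervalIntegral.intervalIntegral_pos_of_pos_on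
  · exact (Phi_cont a c).intervalIntegrable _ _
  · intro x hx
    unfold Phi
    have h1 : 0 < 2 - x := by linarith [hx.2]
    have h2 : 0 < 2 + x := by linarith [hx.1]
    positivity
  · norm_num

noncomputable def y0 (a c : ℕ) : ℝ := 2 * ((c:ℝ) - a) / (a + c + 1)

lemma moment (a c : ℕ) :
    ∫ y in (-2:ℝ)..2, Phi a c y * (y - y0 a c) ^ 2 ≤ 2 / (a + c + 1) * D a c := by
  have hpos : (0:ℝ) < a + c + 1 := by positivity
  set Ψ : ℝ → ℝ := fun y => (2 - y) ^ (2 * a + 1) * (2 + y) ^ (2 * c + 1) * (y - y0 a c) with hΨ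
  have hd : ∀ y : ℝ, HasDerivAt Ψ (Phi a c y * ((4 - y ^ 2) - (2 * (a + c + 1)) * (y - y0 a c) ^ 2)) y := by
    intro y
    have h1 : HasDerivAt (fun y : ℝ => (2 - y)) (-1) y := by
      simpa using (hasDerivAt_id y).const_sub 2
    have h2 : HasDerivAt (fun y : ℝ => (2 + y)) 1 y := by
      simpa using (hasDerivAt_id y).const_add 2
    have h3 : HasDerivAt (fun y : ℝ => (y - y0 a c)) 1 y := by
      simpa using (hasDerivAt_id y).sub_const (y0 a c)
    have h := ((h1.pow (2 * a + 1)).mul (h2.pow (2 * c + 1))).mul h3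
    have h' : HasDerivAt Ψ _ y := h
    convert h' using 1
    have key : (2 * ((a:ℝ) + c + 1)) * (y - y0 a c) = (2 * (a:ℝ) + 1) * (2 + y) - (2 * (c:ℝ) + 1) * (2 - y) := by
      unfold y0
      field_simp
      ring
    have e1 : ((4 - y ^ 2) - (2 * ((a:ℝ) + c + 1)) * (y - y0 a c) ^ 2)
        = (4 - y ^ 2) - ((2 * (a:ℝ) + 1) * (2 + y) - (2 * (c:ℝ) + 1) * (2 - y)) * (y - y0 a c) := by
      rw [← key]; ring
    rw [e1]
    unfold Phi
    simp only [Pi.mul_apply, Pi.pow_apply, Nat.add_sub_cancel]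
    push_cast
    ring
  have hint : IntervalIntegrable (fun y => Phi a c y * ((4 - y ^ 2) - (2 * (a + c + 1)) * (y - y0 a c) ^ 2)) volume (-2) 2 := by
    apply Continuous.intervalIntegrable
    have := Phi_cont a c
    fun_prop
  have hI := intervalIntegral.integral_eq_sub_of_hasDerivAt (fun y _ => hd y) hint
  have hz : Ψ 2 - Ψ (-2) = 0 := by
    simp [hΨ]
  rw [hz] at hI
  have hsplit : ∫ y in (-2:ℝ)..2, Phi a c y * ((4 - y ^ 2) - (2 * (a + c + 1)) * (y - y0 a c) ^ 2)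
      = (∫ y in (-2:ℝ)..2, Phi a c y * (4 - y ^ 2)) - (2 * (a + c + 1)) * ∫ y in (-2:ℝ)..2, Phi a c y * (y - y0 a c) ^ 2 := by
    rw [← intervalIntegral.integral_const_mul, ← intervalIntegral.integral_sub]
    · congr 1; ext y; ring
    · apply Continuous.intervalIntegrable
      have := Phi_cont a c
      fun_prop
    · apply Continuous.intervalIntegrable
      have := Phi_cont a c
      fun_prop
  rw [hsplit] at hI
  have hle : (∫ y in (-2:ℝ)..2, Phi a c y * (4 - y ^ 2)) ≤ 4 * D a c := by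
    unfold D
    rw [← intervalIntegral.integral_const_mul]
    apply intervalIntegral.integral_mono_on (by norm_num)
    · apply Continuous.intervalIntegrable
      have := Phi_cont a c
      fun_prop
    · apply Continuous.intervalIntegrable
      have := Phi_cont a c
      fun_prop
    · intro x _
      have := Phi_nonneg a c x
      nlinarith [sq_nonneg x, mul_nonneg this (sq_nonneg x)]
  rw [div_mul_eq_mul_div, le_div_iff₀ hpos]
  nlinarith

lemma moment2 (a c : ℕ) (η : ℝ) :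
    ∫ y in (-2:ℝ)..2, Phi a c y * (y - η) ^ 2 ≤ (4 / (a + c + 1) + 2 * (y0 a c - η) ^ 2) * D a c := by
  have hc := Phi_cont a c
  have h1 : ∫ y in (-2:ℝ)..2, Phi a c y * (y - η) ^ 2 ≤
      ∫ y in (-2:ℝ)..2, (2 * (Phi a c y * (y - y0 a c) ^ 2) + 2 * (y0 a c - η) ^ 2 * Phi a c y) := by
    apply intervalIntegral.integral_mono_on (by norm_num)
    · apply Continuous.intervalIntegrable
      fun_prop
    · apply Continuous.intervalIntegrable
      fun_prop
    · intro x _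
      have := Phi_nonneg a c x
      nlinarith [mul_nonneg this (sq_nonneg ((x - y0 a c) - (y0 a c - η)))]
  rw [intervalIntegral.integral_add (by apply Continuous.intervalIntegrable; fun_prop)
    (by apply Continuous.intervalIntegrable; fun_prop), intervalIntegral.integral_const_mul,
    intervalIntegral.integral_const_mul] at h1
  have h2 := moment a c
  change _ ≤ _ + _ * D a c at h1
  have h3 : (4:ℝ) / (a + c + 1) = 2 * (2 / (a + c + 1)) := by ring
  rw [h3]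
  nlinarith

/-- data of a monotone piece -/
structure Piece (u v σ : ℝ) : Prop where
  le : u ≤ v
  sq : σ * σ = 1
  abs' : ∀ x ∈ Icc u v, |T' x| = σ * T' x
  inj : InjOn T (Icc u v)
  sub : ∀ g : ℝ → ℝ, Continuous g → ∫ x in u..v, g (T x) * T' x = σ * ∫ y in (-2:ℝ)..2, g y

lemma piece_sub (u v : ℝ) (g : ℝ → ℝ) (hg : Continuous g) :
    ∫ x in u..v, g (T x) * T' x = ∫ y in T u..T v, g y := by
  have := intervalIntegral.integral_comp_mul_deriv (a := u) (b := v) (f := T) (f' := T') (g := g)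
    (fun x _ => T_hasDeriv x) T'_cont.continuousOn hg
  exact this

lemma T_inj_aux {x y : ℝ} (h : T x = T y) (hxy : x ≠ y) : x ^ 2 + x * y + y ^ 2 = 3 := by
  unfold T at h
  have : (x - y) * (x ^ 2 + x * y + y ^ 2 - 3) = 0 := by linear_combination h
  rcases mul_eq_zero.mp this with h | h
  · exact absurd (sub_eq_zero.mp h) hxy
  · linarith

lemma piece1 : Piece (-2) (-1) 1 := by
  refine ⟨by norm_num, by norm_num, ?_, ?_, ?_⟩
  · intro x hx
    rw [one_mul, abs_of_nonneg]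
    unfold T'
    nlinarith [hx.1, hx.2]
  · intro x hx y hy h
    by_contra hne
    have h1 := T_inj_aux h hne
    have hx1 := hx.2; have hy1 := hy.2
    rcases lt_or_gt_of_ne hne with h2 | h2
    · nlinarith [hx.1, hy.1]
    · nlinarith [hx.1, hy.1]
  · intro g hg
    rw [piece_sub _ _ _ hg]
    norm_num [T]

lemma piece2 : Piece (-1) 1 (-1) := by
  refine ⟨by norm_num, by norm_num, ?_, ?_, ?_⟩
  · intro x hx
    rw [abs_of_nonpos]
    · ring
    · unfold T'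
      nlinarith [hx.1, hx.2]
  · intro x hx y hy h
    by_contra hne
    have h1 := T_inj_aux h hne
    have hx1 := hx.2; have hy1 := hy.2
    have hx0 := hx.1; have hy0 := hy.1
    rcases lt_or_gt_of_ne hne with h2 | h2
    · nlinarith
    · nlinarith
  · intro g hg
    rw [piece_sub _ _ _ hg, intervalIntegral.integral_symm]
    norm_num [T]

lemma piece3 : Piece 1 2 1 := by
  refine ⟨by norm_num, by norm_num, ?_, ?_, ?_⟩
  · intro x hx
    rw [one_mul, abs_of_nonneg]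
    unfold T'
    nlinarith [hx.1, hx.2]
  · intro x hx y hy h
    by_contra hne
    have h1 := T_inj_aux h hne
    have hx1 := hx.1; have hy1 := hy.1
    rcases lt_or_gt_of_ne hne with h2 | h2
    · nlinarith
    · nlinarith
  · intro g hg
    rw [piece_sub _ _ _ hg]
    norm_num [T]

lemma sep_bound {u v σ : ℝ} (P : Piece u v σ) {G : ℝ → ℝ} (hG : Continuous G) {ξ η : ℝ}
    (hξ : ξ ∈ Icc u v) (hη : T ξ = η) {ε : ℝ} (hε : 0 < ε) :
    ∃ K : ℝ, 0 ≤ K ∧ ∀ x ∈ Icc u v, |G x - G ξ| ≤ ε + K * (T x - η) ^ 2 := by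
  set S : Set ℝ := {x ∈ Icc u v | ε ≤ |G x - G ξ|} with hS
  have hScomp : IsCompact S := by
    have : S = Icc u v ∩ {x | ε ≤ |G x - G ξ|} := rfl
    rw [this]
    apply isCompact_Icc.inter_right
    exact isClosed_le continuous_const (by fun_prop)
  rcases S.eq_empty_or_nonempty with he | hne
  · refine ⟨0, le_rfl, fun x hx => ?_⟩
    by_contra hlt
    push Not at hlt
    have : x ∈ S := ⟨hx, by linarith⟩
    rw [he] at this
    exact this
  · obtain ⟨x0, hx0, hmin⟩ := hScomp.exists_isMinOn hne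
      (f := fun x => (T x - η) ^ 2) (by have := T_cont; fun_prop)
    obtain ⟨x1, hx1, hmax⟩ := hScomp.exists_isMaxOn hne
      (f := fun x => |G x - G ξ|) (by fun_prop)
    have hm : 0 < (T x0 - η) ^ 2 := by
      have : T x0 - η ≠ 0 := by
        intro h0
        have h1 : T x0 = T ξ := by rw [hη]; linarith
        have h2 := P.inj hx0.1 hξ h1
        have h3 := hx0.2
        rw [h2] at h3
        simp at h3
        linarith
      positivity
    refine ⟨|G x1 - G ξ| / (T x0 - η) ^ 2, by positivity, fun x hx => ?_⟩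
    by_cases hxS : x ∈ S
    · have h1 : (T x0 - η) ^ 2 ≤ (T x - η) ^ 2 := hmin hxS
      have h2 : |G x - G ξ| ≤ |G x1 - G ξ| := hmax hxS
      have h3 : |G x1 - G ξ| ≤ |G x1 - G ξ| / (T x0 - η) ^ 2 * (T x - η) ^ 2 := by
        rw [div_mul_eq_mul_div, le_div_iff₀ hm]
        exact mul_le_mul_of_nonneg_left h1 (abs_nonneg _)
      linarith
    · have h1 : |G x - G ξ| < ε := by
        by_contra h
        push Not at h
        exact hxS ⟨hx, h⟩
      have : 0 ≤ |G x1 - G ξ| / (T x0 - η) ^ 2 * (T x - η) ^ 2 := by positivity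
      linarith

lemma conc_bound {u v σ : ℝ} (P : Piece u v σ) {G : ℝ → ℝ} (hG : Continuous G) {ξ η : ℝ}
    {ε K : ℝ} (hK : ∀ x ∈ Icc u v, |G x - G ξ| ≤ ε + K * (T x - η) ^ 2) (hK0 : 0 ≤ K) (a c : ℕ) :
    |(∫ x in u..v, Phi a c (T x) * T' x * G x) - σ * G ξ * D a c| ≤
      (ε + K * (4 / (a + c + 1) + 2 * (y0 a c - η) ^ 2)) * D a c := by
  have hc := Phi_cont a c
  have hT := T_cont
  have hT' := T'_cont
  have e1 : (∫ x in u..v, Phi a c (T x) * T' x * G x) - σ * G ξ * D a c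
      = ∫ x in u..v, Phi a c (T x) * T' x * (G x - G ξ) := by
    have h1 : ∫ x in u..v, Phi a c (T x) * T' x * (G x - G ξ) =
        (∫ x in u..v, Phi a c (T x) * T' x * G x) - ∫ x in u..v, G ξ * (Phi a c (T x) * T' x) := by
      rw [← intervalIntegral.integral_sub (by apply Continuous.intervalIntegrable; fun_prop)
        (by apply Continuous.intervalIntegrable; fun_prop)]
      congr 1; ext x; ring
    rw [h1, intervalIntegral.integral_const_mul, P.sub _ hc]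
    unfold D; ring
  rw [e1]
  have h2 : |∫ x in u..v, Phi a c (T x) * T' x * (G x - G ξ)| ≤
      ∫ x in u..v, |Phi a c (T x) * T' x * (G x - G ξ)| :=
    intervalIntegral.abs_integral_le_integral_abs P.le
  have h3 : ∫ x in u..v, |Phi a c (T x) * T' x * (G x - G ξ)| ≤
      ∫ x in u..v, σ * ((Phi a c (T x) * (ε + K * (T x - η) ^ 2)) * T' x) := by
    apply intervalIntegral.integral_mono_on P.le
    · apply Continuous.intervalIntegrable; fun_prop
    · apply Continuous.intervalIntegrable; fun_prop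
    · intro x hx
      rw [abs_mul, abs_mul, P.abs' x hx, abs_of_nonneg (Phi_nonneg a c _)]
      have h4 := hK x hx
      have h5 : 0 ≤ σ * T' x := by rw [← P.abs' x hx]; positivity
      have h6 := Phi_nonneg a c (T x)
      calc Phi a c (T x) * (σ * T' x) * |G x - G ξ| ≤ Phi a c (T x) * (σ * T' x) * (ε + K * (T x - η) ^ 2) :=
            mul_le_mul_of_nonneg_left h4 (mul_nonneg h6 h5)
        _ = σ * ((Phi a c (T x) * (ε + K * (T x - η) ^ 2)) * T' x) := by ring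
  have h4 : ∫ x in u..v, σ * ((Phi a c (T x) * (ε + K * (T x - η) ^ 2)) * T' x) =
      ∫ y in (-2:ℝ)..2, Phi a c y * (ε + K * (y - η) ^ 2) := by
    rw [intervalIntegral.integral_const_mul,
      P.sub (fun y => Phi a c y * (ε + K * (y - η) ^ 2)) (by fun_prop), ← mul_assoc, P.sq, one_mul]
  have h5 : ∫ y in (-2:ℝ)..2, Phi a c y * (ε + K * (y - η) ^ 2) =
      ε * D a c + K * ∫ y in (-2:ℝ)..2, Phi a c y * (y - η) ^ 2 := by
    unfold D
    rw [← intervalIntegral.integral_const_mul, ← intervalIntegral.integral_const_mul,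
      ← intervalIntegral.integral_add (by apply Continuous.intervalIntegrable; fun_prop)
        (by apply Continuous.intervalIntegrable; fun_prop)]
    congr 1; ext y; ring
  have h6 := moment2 a c η
  have h7 := mul_le_mul_of_nonneg_left h6 hK0
  nlinarith


lemma choose_ac {η : ℝ} (h1 : -2 ≤ η) (h2 : η ≤ 2) {δ : ℝ} (hδ : 0 < δ) :
    ∃ a c : ℕ, 4 / ((a:ℝ) + c + 1) + 2 * (y0 a c - η) ^ 2 < δ := by
  have hlim : Tendsto (fun n : ℕ => 4 / (4 * (n:ℝ) - 1) + 2 * (6 / (4 * (n:ℝ) - 1)) ^ 2) atTop (𝓝 (0 + 2 * 0 ^ 2)) := by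
    have hb : Tendsto (fun n : ℕ => 4 * (n:ℝ) - 1) atTop atTop := by
      apply tendsto_atTop_add_const_right
      exact (tendsto_natCast_atTop_atTop).const_mul_atTop (by norm_num)
    have h4 := hb.const_div_atTop 4
    have h6 := hb.const_div_atTop 6
    exact h4.add ((h6.pow 2).const_mul 2)
  rw [show (0:ℝ) + 2 * 0 ^ 2 = 0 by norm_num] at hlim
  obtain ⟨n, hn, hn1⟩ := ((hlim.eventually_lt_const hδ).and (eventually_ge_atTop 1)).exists
  have hn1' : (1:ℝ) ≤ n := by exact_mod_cast hn1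
  refine ⟨⌊(n:ℝ) * (2 - η)⌋₊, ⌊(n:ℝ) * (2 + η)⌋₊, lt_of_le_of_lt ?_ hn⟩
  set a := ⌊(n:ℝ) * (2 - η)⌋₊ with ha
  set c := ⌊(n:ℝ) * (2 + η)⌋₊ with hc
  have ha1 : (a:ℝ) ≤ n * (2 - η) := Nat.floor_le (by nlinarith)
  have ha2 : (n:ℝ) * (2 - η) < a + 1 := Nat.lt_floor_add_one _
  have hc1 : (c:ℝ) ≤ n * (2 + η) := Nat.floor_le (by nlinarith)
  have hc2 : (n:ℝ) * (2 + η) < c + 1 := Nat.lt_floor_add_one _
  have hsum : 4 * (n:ℝ) - 1 ≤ a + c + 1 := by linarith
  have hpos : 0 < 4 * (n:ℝ) - 1 := by linarith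
  have hpos2 : (0:ℝ) < a + c + 1 := by linarith
  have hy : |y0 a c - η| ≤ 6 / (4 * (n:ℝ) - 1) := by
    have e : y0 a c - η = ((c:ℝ) * (2 - η) - a * (2 + η) - η) / (a + c + 1) := by
      unfold y0; field_simp; ring
    rw [e, abs_div, abs_of_pos hpos2]
    have hnum : |(c:ℝ) * (2 - η) - a * (2 + η) - η| ≤ 6 := by
      rw [abs_le]
      constructor
      · nlinarith
      · nlinarith
    exact div_le_div₀ (by norm_num) hnum hpos hsum
  have h3 : 4 / ((a:ℝ) + c + 1) ≤ 4 / (4 * (n:ℝ) - 1) := div_le_div_of_nonneg_left (by norm_num) hpos hsum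
  have h4 : (y0 a c - η) ^ 2 ≤ (6 / (4 * (n:ℝ) - 1)) ^ 2 := by
    rw [← sq_abs (y0 a c - η)]
    exact pow_le_pow_left₀ (abs_nonneg _) hy 2
  linarith

noncomputable def I (u v : ℝ) (G : ℝ → ℝ) (a c : ℕ) : ℝ := ∫ x in u..v, Phi a c (T x) * T' x * G x

lemma conc3 {G : ℝ → ℝ} (hG : Continuous G) {η ξ1 ξ2 ξ3 : ℝ} (h1 : -2 ≤ η) (h2 : η ≤ 2)
    (hξ1 : ξ1 ∈ Icc (-2:ℝ) (-1)) (hξ2 : ξ2 ∈ Icc (-1:ℝ) 1) (hξ3 : ξ3 ∈ Icc (1:ℝ) 2)
    (e1 : T ξ1 = η) (e2 : T ξ2 = η) (e3 : T ξ3 = η) {δ : ℝ} (hδ : 0 < δ) :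
    ∃ a c : ℕ, |I (-2) (-1) G a c / D a c - G ξ1| < δ ∧ |I (-1) 1 G a c / D a c - (- G ξ2)| < δ ∧
      |I 1 2 G a c / D a c - G ξ3| < δ := by
  obtain ⟨K1, hK1, b1⟩ := sep_bound piece1 hG hξ1 e1 (half_pos hδ)
  obtain ⟨K2, hK2, b2⟩ := sep_bound piece2 hG hξ2 e2 (half_pos hδ)
  obtain ⟨K3, hK3, b3⟩ := sep_bound piece3 hG hξ3 e3 (half_pos hδ)
  obtain ⟨a, c, hac⟩ := choose_ac h1 h2 (δ := δ / (2 * (K1 + K2 + K3 + 1))) (by positivity)
  have hD := D_pos a c
  refine ⟨a, c, ?_⟩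
  have c1 := conc_bound piece1 hG b1 hK1 a c
  have c2 := conc_bound piece2 hG b2 hK2 a c
  have c3 := conc_bound piece3 hG b3 hK3 a c
  set E := 4 / ((a:ℝ) + c + 1) + 2 * (y0 a c - η) ^ 2 with hE
  have hE0 : 0 ≤ E := by positivity
  have hEK : (K1 + K2 + K3 + 1) * E < δ / 2 := by
    have : (K1 + K2 + K3 + 1) * E < (K1 + K2 + K3 + 1) * (δ / (2 * (K1 + K2 + K3 + 1))) :=
      mul_lt_mul_of_pos_left hac (by positivity)
    have e : (K1 + K2 + K3 + 1) * (δ / (2 * (K1 + K2 + K3 + 1))) = δ / 2 := by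
      field_simp
    linarith
  have key : ∀ (J σ g : ℝ) (K : ℝ), K ≤ K1 + K2 + K3 + 1 → |J - σ * g * D a c| ≤ (δ / 2 + K * E) * D a c →
      |J / D a c - σ * g| < δ := by
    intro J σ g K hK h
    have e : J / D a c - σ * g = (J - σ * g * D a c) / D a c := by field_simp
    rw [e, abs_div, abs_of_pos hD, div_lt_iff₀ hD]
    refine lt_of_le_of_lt h ?_
    apply mul_lt_mul_of_pos_right _ hD
    have : K * E ≤ (K1 + K2 + K3 + 1) * E := mul_le_mul_of_nonneg_right hK hE0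
    linarith
  refine ⟨?_, ?_, ?_⟩
  · have := key _ _ _ K1 (by linarith) c1
    simpa [I] using this
  · have := key _ _ _ K2 (by linarith) c2
    simpa [I] using this
  · have := key _ _ _ K3 (by linarith) c3
    simpa [I] using this

/-- integrals of a polynomial over `[u,v]` -/
noncomputable def J (u v : ℝ) (w : ℝ[X]) : ℝ := ∫ x in u..v, w.eval x

/-- the pair of ratios `(A, C)` can be approximated -/
def Good (A C : ℝ) : Prop := ∀ δ > 0, ∃ w : ℝ[X],
  (∀ z : ℂ, aeval z w = 0 → z = ((-2:ℝ):ℂ) ∨ z = ((-1:ℝ):ℂ) ∨ z = ((1:ℝ):ℂ) ∨ z = ((2:ℝ):ℂ)) ∧ J (-1) 1 w ≠ 0 ∧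
  |J (-2) (-1) w / J (-1) 1 w - A| < δ ∧ |J 1 2 w / J (-1) 1 w - C| < δ

lemma good_of_approx {A C : ℝ} (h : ∀ δ > 0, ∃ A' C', Good A' C' ∧ |A' - A| < δ ∧ |C' - C| < δ) :
    Good A C := by
  intro δ hδ
  obtain ⟨A', C', hg, h1, h2⟩ := h (δ / 2) (half_pos hδ)
  obtain ⟨w, hw, h0, h3, h4⟩ := hg (δ / 2) (half_pos hδ)
  refine ⟨w, hw, h0, ?_, ?_⟩
  · have := abs_sub_le (J (-2) (-1) w / J (-1) 1 w) A' A
    linarith
  · have := abs_sub_le (J 1 2 w / J (-1) 1 w) C' C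
    linarith

noncomputable def Gp (h1 h2 h3 h4 : ℕ) (x : ℝ) : ℝ := (x + 2) ^ h1 * (x + 1) ^ h2 * (x - 1) ^ h3 * (x - 2) ^ h4

noncomputable def W (a c h1 h2 h3 h4 : ℕ) : ℝ[X] :=
  Polynomial.C 3 * (X - Polynomial.C (-2)) ^ (2 * c + h1) * (X - Polynomial.C (-1)) ^ (4 * a + 1 + h2) *
    (X - Polynomial.C 1) ^ (4 * c + 1 + h3) * (X - Polynomial.C 2) ^ (2 * a + h4)

lemma W_eval (a c h1 h2 h3 h4 : ℕ) (x : ℝ) :
    (W a c h1 h2 h3 h4).eval x = Phi a c (T x) * T' x * Gp h1 h2 h3 h4 x := by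
  have e1 : 2 - T x = (2 - x) * (x + 1) ^ 2 := by unfold T; ring
  have e2 : 2 + T x = (x + 2) * (x - 1) ^ 2 := by unfold T; ring
  have e3 : (2 - x) ^ (2 * a) = (x - 2) ^ (2 * a) := by
    rw [pow_mul, pow_mul]; congr 1; ring
  unfold W Phi T' Gp
  rw [e1, e2, mul_pow, mul_pow, e3, ← pow_mul (x + 1), ← pow_mul (x - 1)]
  simp only [eval_mul, eval_pow, eval_sub, eval_X, eval_C, sub_neg_eq_add]
  rw [show 2 * (2 * a) = 4 * a by ring, show 2 * (2 * c) = 4 * c by ring]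
  simp only [pow_add, pow_one]
  ring

lemma W_zero (a c h1 h2 h3 h4 : ℕ) (z : ℂ) (hz : aeval z (W a c h1 h2 h3 h4) = 0) :
    z = ((-2:ℝ):ℂ) ∨ z = ((-1:ℝ):ℂ) ∨ z = ((1:ℝ):ℂ) ∨ z = ((2:ℝ):ℂ) := by
  unfold W at hz
  simp only [map_mul, map_pow, map_sub, aeval_X, aeval_C] at hz
  have h3 : (algebraMap ℝ ℂ) 3 ≠ 0 := by norm_num
  have hh : ∀ r : ℝ, (algebraMap ℝ ℂ) r = (r:ℂ) := fun r => rfl
  rcases mul_eq_zero.mp hz with hz | hz
  · rcases mul_eq_zero.mp hz with hz | hz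
    · rcases mul_eq_zero.mp hz with hz | hz
      · rcases mul_eq_zero.mp hz with hz | hz
        · exact absurd hz h3
        · left
          exact sub_eq_zero.mp (eq_zero_of_pow_eq_zero hz)
      · right; left
        exact sub_eq_zero.mp (eq_zero_of_pow_eq_zero hz)
    · right; right; left
      exact sub_eq_zero.mp (eq_zero_of_pow_eq_zero hz)
  · right; right; right
    exact sub_eq_zero.mp (eq_zero_of_pow_eq_zero hz)

lemma good_of_G (h1 h2 h3 h4 : ℕ) {η ξ1 ξ2 ξ3 : ℝ} (hη1 : -2 ≤ η) (hη2 : η ≤ 2)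
    (hξ1 : ξ1 ∈ Icc (-2:ℝ) (-1)) (hξ2 : ξ2 ∈ Icc (-1:ℝ) 1) (hξ3 : ξ3 ∈ Icc (1:ℝ) 2)
    (e1 : T ξ1 = η) (e2 : T ξ2 = η) (e3 : T ξ3 = η) (hne : Gp h1 h2 h3 h4 ξ2 ≠ 0) :
    Good (-(Gp h1 h2 h3 h4 ξ1 / Gp h1 h2 h3 h4 ξ2)) (-(Gp h1 h2 h3 h4 ξ3 / Gp h1 h2 h3 h4 ξ2)) := by
  intro δ hδ
  set G := Gp h1 h2 h3 h4 with hG
  have hGc : Continuous G := by rw [hG]; unfold Gp; fun_prop
  -- continuity of division
  have hcont1 : ContinuousAt (fun p : ℝ × ℝ => p.1 / p.2) (G ξ1, - G ξ2) := by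
    apply ContinuousAt.div continuousAt_fst continuousAt_snd
    simpa using hne
  have hcont3 : ContinuousAt (fun p : ℝ × ℝ => p.1 / p.2) (G ξ3, - G ξ2) := by
    apply ContinuousAt.div continuousAt_fst continuousAt_snd
    simpa using hne
  obtain ⟨δ1, hδ1, H1⟩ := Metric.continuousAt_iff.mp hcont1 δ hδ
  obtain ⟨δ3, hδ3, H3⟩ := Metric.continuousAt_iff.mp hcont3 δ hδ
  have hGpos : 0 < |G ξ2| := abs_pos.mpr hne
  obtain ⟨a, c, c1, c2, c3⟩ := conc3 hGc hη1 hη2 hξ1 hξ2 hξ3 e1 e2 e3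
    (δ := min (min δ1 δ3) |G ξ2|) (lt_min (lt_min hδ1 hδ3) hGpos)
  have hD := D_pos a c
  have hJ : ∀ u v : ℝ, J u v (W a c h1 h2 h3 h4) = I u v G a c := by
    intro u v
    unfold J I
    congr 1; ext x
    rw [W_eval, hG]
  have hI2 : I (-1) 1 G a c ≠ 0 := by
    intro h0
    rw [h0] at c2
    simp only [zero_div, sub_neg_eq_add, zero_add] at c2
    exact absurd (lt_of_lt_of_le c2 (min_le_right _ _)) (lt_irrefl _)
  refine ⟨W a c h1 h2 h3 h4, W_zero a c h1 h2 h3 h4, ?_, ?_, ?_⟩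
  · rw [hJ]; exact hI2
  · rw [hJ, hJ]
    have := H1 (x := (I (-2) (-1) G a c / D a c, I (-1) 1 G a c / D a c)) (by
      rw [Prod.dist_eq, max_lt_iff]
      constructor
      · rw [Real.dist_eq]; exact lt_of_lt_of_le c1 ((min_le_left _ _).trans (min_le_left _ _))
      · rw [Real.dist_eq]; exact lt_of_lt_of_le c2 ((min_le_left _ _).trans (min_le_left _ _)))
    rw [Real.dist_eq] at this
    have e : I (-2) (-1) G a c / D a c / (I (-1) 1 G a c / D a c) = I (-2) (-1) G a c / I (-1) 1 G a c := by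
      field_simp
    simp only at this
    rw [e, div_neg] at this
    exact this
  · rw [hJ, hJ]
    have := H3 (x := (I 1 2 G a c / D a c, I (-1) 1 G a c / D a c)) (by
      rw [Prod.dist_eq, max_lt_iff]
      constructor
      · rw [Real.dist_eq]; exact lt_of_lt_of_le c3 ((min_le_left _ _).trans (min_le_right _ _))
      · rw [Real.dist_eq]; exact lt_of_lt_of_le c2 ((min_le_left _ _).trans (min_le_right _ _)))
    rw [Real.dist_eq] at this
    have e : I 1 2 G a c / D a c / (I (-1) 1 G a c / D a c) = I 1 2 G a c / I (-1) 1 G a c := by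
      field_simp
    simp only at this
    rw [e, div_neg] at this
    exact this

lemma Gp_eq (k l : ℤ) (h1 h2 h3 h4 : ℕ) (hk : (h2:ℤ) = k + 2 * h4) (hl : (h3:ℤ) = l + 2 * h1) (ξ : ℝ)
    (hp : ξ + 1 ≠ 0) (hm : ξ - 1 ≠ 0) :
    Gp h1 h2 h3 h4 ξ = (T ξ + 2) ^ h1 * (T ξ - 2) ^ h4 * ((ξ + 1) ^ k * (ξ - 1) ^ l) := by
  have e1 : T ξ - 2 = (ξ - 2) * (ξ + 1) ^ 2 := by unfold T; ring
  have e2 : T ξ + 2 = (ξ + 2) * (ξ - 1) ^ 2 := by unfold T; ring
  have e3 : (ξ + 1) ^ h2 = (ξ + 1) ^ k * (ξ + 1) ^ (2 * h4) := by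
    rw [← zpow_natCast, hk, zpow_add₀ hp, ← zpow_natCast]
    push_cast; rfl
  have e4 : (ξ - 1) ^ h3 = (ξ - 1) ^ l * (ξ - 1) ^ (2 * h1) := by
    rw [← zpow_natCast, hl, zpow_add₀ hm, ← zpow_natCast]
    push_cast; rfl
  unfold Gp
  rw [e1, e2, e3, e4, mul_pow, mul_pow, ← pow_mul, ← pow_mul]
  ring

lemma T_eq_of {x y : ℝ} (h : x ^ 2 + x * y + y ^ 2 = 3) : T x = T y := by
  unfold T
  linear_combination (x - y) * h

lemma good_kl {ξ1 ξ2 ξ3 : ℝ} 
    (hξ1 : ξ1 ∈ Ico (-2:ℝ) (-1)) (hξ2 : ξ2 ∈ Ioo (-1:ℝ) 1) (hξ3 : ξ3 ∈ Ioc (1:ℝ) 2)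
    (e1 : T ξ1 = T ξ2) (e3 : T ξ3 = T ξ2) (k l : ℤ) :
    Good (-(((ξ1 + 1) / (ξ2 + 1)) ^ k * ((ξ1 - 1) / (ξ2 - 1)) ^ l))
      (-(((ξ3 + 1) / (ξ2 + 1)) ^ k * ((ξ3 - 1) / (ξ2 - 1)) ^ l)) := by
  have hη1 : -2 < T ξ2 := by
    have e2 : T ξ2 + 2 = (ξ2 + 2) * (ξ2 - 1) ^ 2 := by unfold T; ring
    have : 0 < (ξ2 + 2) * (ξ2 - 1) ^ 2 := by
      have := hξ2.1; have := hξ2.2
      have h : ξ2 - 1 ≠ 0 := by linarith
      have : 0 < ξ2 + 2 := by linarith
      positivity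
    linarith
  have hη2 : T ξ2 < 2 := by
    have e2 : 2 - T ξ2 = (2 - ξ2) * (ξ2 + 1) ^ 2 := by unfold T; ring
    have : 0 < (2 - ξ2) * (ξ2 + 1) ^ 2 := by
      have := hξ2.1; have := hξ2.2
      have h : ξ2 + 1 ≠ 0 := by linarith
      have : 0 < 2 - ξ2 := by linarith
      positivity
    linarith
  have hk1 : ((k + 2 * (k.natAbs : ℤ)).toNat : ℤ) = k + 2 * (k.natAbs : ℤ) := by omega
  have hl1 : ((l + 2 * (l.natAbs : ℤ)).toNat : ℤ) = l + 2 * (l.natAbs : ℤ) := by omega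
  have m1p : ξ1 + 1 ≠ 0 := by linarith [hξ1.2]
  have m1m : ξ1 - 1 ≠ 0 := by linarith [hξ1.2]
  have m2p : ξ2 + 1 ≠ 0 := by linarith [hξ2.1]
  have m2m : ξ2 - 1 ≠ 0 := by linarith [hξ2.2]
  have m3p : ξ3 + 1 ≠ 0 := by linarith [hξ3.1]
  have m3m : ξ3 - 1 ≠ 0 := by linarith [hξ3.1]
  have g1 := Gp_eq k l _ _ _ _ hk1 hl1 ξ1 m1p m1m
  have g2 := Gp_eq k l _ _ _ _ hk1 hl1 ξ2 m2p m2m
  have g3 := Gp_eq k l _ _ _ _ hk1 hl1 ξ3 m3p m3m
  rw [e1] at g1
  rw [e3] at g3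
  have hF : (T ξ2 + 2) ^ l.natAbs * (T ξ2 - 2) ^ k.natAbs ≠ 0 := by
    have h1 : T ξ2 + 2 ≠ 0 := by linarith
    have h2 : T ξ2 - 2 ≠ 0 := by linarith
    positivity
  have hne : Gp l.natAbs (k + 2 * (k.natAbs : ℤ)).toNat (l + 2 * (l.natAbs : ℤ)).toNat k.natAbs ξ2 ≠ 0 := by
    rw [g2]
    exact mul_ne_zero hF (mul_ne_zero (zpow_ne_zero _ m2p) (zpow_ne_zero _ m2m))
  have hgood := good_of_G _ _ _ _ hη1.le hη2.le ⟨hξ1.1, hξ1.2.le⟩ ⟨hξ2.1.le, hξ2.2.le⟩
    ⟨hξ3.1.le, hξ3.2⟩ e1 rfl e3 hne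
  rw [g1, g2, g3] at hgood
  have q : ∀ a b : ℝ, (T ξ2 + 2) ^ l.natAbs * (T ξ2 - 2) ^ k.natAbs * ((a + 1) ^ k * (a - 1) ^ l) /
      ((T ξ2 + 2) ^ l.natAbs * (T ξ2 - 2) ^ k.natAbs * ((b + 1) ^ k * (b - 1) ^ l)) =
      ((a + 1) / (b + 1)) ^ k * ((a - 1) / (b - 1)) ^ l := by
    intro a b
    rw [mul_div_mul_left _ _ hF, div_zpow, div_zpow, mul_div_mul_comm]
  rw [q, q] at hgood
  exact hgood

noncomputable def sf (t : ℝ) : ℝ := (t - 3 + Real.sqrt (9 + 6 * t - 3 * t ^ 2)) / 2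

lemma sf_eq {t : ℝ} (h0 : 0 ≤ t) (h1 : t ≤ 1) : (sf t) ^ 2 + (3 - t) * sf t = 3 * t - t ^ 2 := by
  have h : 0 ≤ 9 + 6 * t - 3 * t ^ 2 := by nlinarith
  have hs := Real.sq_sqrt h
  unfold sf
  nlinarith

lemma sf_pos {t : ℝ} (h0 : 0 < t) (h1 : t ≤ 1) : 0 < sf t := by
  have h : 3 - t < Real.sqrt (9 + 6 * t - 3 * t ^ 2) := by
    apply Real.lt_sqrt_of_sq_lt
    nlinarith
  unfold sf
  linarith

lemma sf_lt {t : ℝ} (h0 : 0 < t) (h1 : t ≤ 1) : sf t < t := by
  have := sf_eq h0.le h1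
  have := sf_pos h0 h1
  nlinarith

lemma good_t {t : ℝ} (h0 : 0 < t) (h1 : t ≤ 1) (k l : ℤ) :
    Good (-((-((3 - t) / (3 + sf t - t))) ^ k * ((2 + sf t) / (2 - t)) ^ l))
      (-(((3 + sf t - t) / t) ^ k * (-((1 + sf t - t) / (2 - t))) ^ l)) := by
  have e := sf_eq h0.le h1
  have p := sf_pos h0 h1
  have q := sf_lt h0 h1
  have h := good_kl (ξ1 := -1 - sf t) (ξ2 := -1 + t) (ξ3 := 2 + sf t - t)
    ⟨by linarith, by linarith⟩ ⟨by linarith, by linarith⟩ ⟨by linarith, by linarith⟩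
    (T_eq_of (by linear_combination e)) (T_eq_of (by linear_combination e)) k l
  have a1 : (-1 - sf t + 1) / (-1 + t + 1) = -((3 - t) / (3 + sf t - t)) := by
    have : 3 + sf t - t ≠ 0 := by linarith
    rw [show -1 + t + 1 = t by ring]
    field_simp
    linear_combination -e
  have a2 : (-1 - sf t - 1) / (-1 + t - 1) = (2 + sf t) / (2 - t) := by
    rw [show -1 - sf t - 1 = -(2 + sf t) by ring, show -1 + t - 1 = -(2 - t) by ring, neg_div_neg_eq]
  have a3 : (2 + sf t - t + 1) / (-1 + t + 1) = (3 + sf t - t) / t := by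
    congr 1 <;> ring
  have a4 : (2 + sf t - t - 1) / (-1 + t - 1) = -((1 + sf t - t) / (2 - t)) := by
    rw [show -1 + t - 1 = -(2 - t) by ring, div_neg]
    congr 2; ring
  rw [a1, a2, a3, a4] at h
  exact h

lemma sf_zero : sf 0 = 0 := by
  unfold sf
  rw [show (9:ℝ) + 6 * 0 - 3 * 0 ^ 2 = 3 ^ 2 by norm_num, Real.sqrt_sq (by norm_num)]
  norm_num

lemma sf_deriv : HasDerivAt sf 1 0 := by
  have h1 : HasDerivAt (fun t : ℝ => 9 + 6 * t - 3 * t ^ 2) (6 - 3 * (2 * 0)) 0 := by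
    have h : HasDerivAt (fun t : ℝ => 9 + 6 * t - 3 * t ^ 2) (6 * 1 - 3 * (((2:ℕ):ℝ) * 0 ^ (2 - 1))) 0 :=
      (((hasDerivAt_id (0:ℝ)).const_mul 6).const_add 9).sub ((hasDerivAt_pow 2 (0:ℝ)).const_mul 3)
    refine h.congr_deriv ?_
    norm_num
  have h2 := h1.sqrt (by norm_num)
  have h3 : HasDerivAt sf _ 0 := (((hasDerivAt_id (0:ℝ)).sub_const 3).add h2).div_const 2
  refine h3.congr_deriv ?_
  rw [show (9:ℝ) + 6 * 0 - 3 * 0 ^ 2 = 3 ^ 2 by norm_num, Real.sqrt_sq (by norm_num)]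
  norm_num

noncomputable def φ1 (t : ℝ) : ℝ := Real.log (3 - t) - Real.log (3 + sf t - t)
noncomputable def φ2 (t : ℝ) : ℝ := Real.log (2 + sf t) - Real.log (2 - t)
noncomputable def φ3 (t : ℝ) : ℝ := Real.log (3 + sf t - t) - Real.log 3
noncomputable def φ4 (t : ℝ) : ℝ := Real.log (1 + sf t - t) - Real.log (2 - t) + Real.log 2

lemma lin_deriv (a : ℝ) : HasDerivAt (fun t : ℝ => a - t) (-1) 0 := by
  simpa using (hasDerivAt_id (0:ℝ)).const_sub a

lemma sfa_deriv (a : ℝ) : HasDerivAt (fun t : ℝ => a + sf t - t) 0 0 := by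
  have h : HasDerivAt (fun t : ℝ => a + sf t - t) (1 - 1) 0 :=
    (sf_deriv.const_add a).sub (hasDerivAt_id (0:ℝ))
  exact h.congr_deriv (by norm_num)

lemma slope_of {φ : ℝ → ℝ} {c : ℝ} (h : HasDerivAt φ c 0) (h0 : φ 0 = 0) {t : ℕ → ℝ}
    (ht : Tendsto t atTop (𝓝 0)) (hpos : ∀ m, 0 < t m) : Tendsto (fun m => φ (t m) / t m) atTop (𝓝 c) := by
  rw [hasDerivAt_iff_tendsto_slope_zero] at h
  have ht' : Tendsto t atTop (𝓝[≠] 0) := by
    rw [tendsto_nhdsWithin_iff]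
    exact ⟨ht, Eventually.of_forall fun m => (hpos m).ne'⟩
  have := h.comp ht'
  refine this.congr (fun m => ?_)
  simp only [Function.comp, zero_add, h0, sub_zero, smul_eq_mul]
  rw [div_eq_inv_mul]

lemma φ1_deriv : HasDerivAt φ1 (-1/3) 0 := by
  have h1 := (lin_deriv 3).log (by norm_num)
  have h2 := (sfa_deriv 3).log (by rw [sf_zero]; norm_num)
  have h3 : HasDerivAt φ1 _ 0 := h1.sub h2
  refine h3.congr_deriv ?_
  rw [sf_zero]; norm_num

lemma φ2_deriv : HasDerivAt φ2 1 0 := by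
  have h1 := (lin_deriv 2).log (by norm_num)
  have h2 := (sf_deriv.const_add 2).log (by rw [sf_zero]; norm_num)
  have h3 : HasDerivAt φ2 _ 0 := h2.sub h1
  refine h3.congr_deriv ?_
  rw [sf_zero]; norm_num

lemma φ3_deriv : HasDerivAt φ3 0 0 := by
  have h2 := (sfa_deriv 3).log (by rw [sf_zero]; norm_num)
  have h3 : HasDerivAt φ3 _ 0 := h2.sub_const (Real.log 3)
  refine h3.congr_deriv ?_
  norm_num

lemma φ4_deriv : HasDerivAt φ4 (1/2) 0 := by
  have h1 := (lin_deriv 2).log (by norm_num)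
  have h2 := (sfa_deriv 1).log (by rw [sf_zero]; norm_num)
  have h3 : HasDerivAt φ4 _ 0 := (h2.sub h1).add_const (Real.log 2)
  refine h3.congr_deriv ?_
  rw [sf_zero]; norm_num

lemma floor_lim {q : ℕ → ℝ} (hq : Tendsto q atTop (𝓝 0)) (hpos : ∀ᶠ m in atTop, 0 < q m) (τ : ℝ) (e : ℤ) :
    Tendsto (fun m => ((2 * ⌊τ / (2 * q m)⌋ + e : ℤ) : ℝ) * q m) atTop (𝓝 τ) := by
  have h1 : Tendsto (fun m => τ - 2 * q m + e * q m) atTop (𝓝 (τ - 2 * 0 + e * 0)) :=
    ((hq.const_mul 2).const_sub τ).add (hq.const_mul _)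
  have h2 : Tendsto (fun m => τ + e * q m) atTop (𝓝 (τ + e * 0)) :=
    (hq.const_mul _).const_add τ
  simp only [mul_zero, sub_zero, add_zero] at h1 h2
  refine tendsto_of_tendsto_of_tendsto_of_le_of_le' h1 h2 ?_ ?_
  · filter_upwards [hpos] with m hm
    have := Int.lt_floor_add_one (τ / (2 * q m))
    rw [div_lt_iff₀ (by positivity)] at this
    push_cast
    nlinarith
  · filter_upwards [hpos] with m hm
    have := Int.floor_le (τ / (2 * q m))
    rw [le_div_iff₀ (by positivity)] at this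
    push_cast
    nlinarith

lemma key_lim {τ1 τ2 : ℝ} (hτ : τ1 ≠ 0) (e1 e2 : ℤ) :
    ∃ (t : ℕ → ℝ) (j l : ℕ → ℤ), Tendsto t atTop (𝓝 0) ∧ (∀ m, 0 < t m) ∧
      (∀ m, ∃ r : ℤ, j m = 2 * r + e1) ∧ (∀ m, ∃ r : ℤ, l m = 2 * r + e2) ∧
      Tendsto (fun m => (j m : ℝ) * φ1 (t m) + l m * φ2 (t m)) atTop (𝓝 τ1) ∧
      Tendsto (fun m => (j m : ℝ) * (Real.log (3 + sf (t m) - t m) - Real.log (t m)) +
        l m * (Real.log (1 + sf (t m) - t m) - Real.log (2 - t m))) atTop (𝓝 τ2) := by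
  set ρ : ℝ := (τ2 + e2 * Real.log 2 - τ1 / 2) / τ1 with hρ
  set u : ℕ → ℝ := fun m => (m:ℝ) * (1/4:ℝ) ^ m with hu
  have hu0 : Tendsto u atTop (𝓝 0) := tendsto_self_mul_const_pow_of_lt_one (by norm_num) (by norm_num)
  set t : ℕ → ℝ := fun m => 3 * (1/4:ℝ) ^ m * Real.exp (-(6 * ρ * u m)) with ht
  have htpos : ∀ m, 0 < t m := fun m => by positivity
  have hexp : Tendsto (fun m => Real.exp (-(6 * ρ * u m))) atTop (𝓝 (Real.exp (-(6 * ρ * 0)))) :=
    (Real.continuous_exp.tendsto _).comp ((hu0.const_mul (6 * ρ)).neg)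
  have hexp2 : Tendsto (fun m => Real.exp (6 * ρ * u m)) atTop (𝓝 (Real.exp (6 * ρ * 0))) :=
    (Real.continuous_exp.tendsto _).comp (hu0.const_mul (6 * ρ))
  simp only [mul_zero, neg_zero, Real.exp_zero] at hexp hexp2
  have ht0 : Tendsto t atTop (𝓝 0) := by
    have h := ((tendsto_pow_atTop_nhds_zero_of_lt_one (r := (1/4:ℝ)) (by norm_num) (by norm_num)).const_mul 3).mul hexp
    rw [mul_zero, zero_mul] at h
    exact h
  set q : ℕ → ℝ := fun m => 2 * m * t m with hq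
  have hqe : ∀ m, q m = 6 * u m * Real.exp (-(6 * ρ * u m)) := by
    intro m; simp only [hq, ht, hu]; ring
  have hq0 : Tendsto q atTop (𝓝 0) := by
    have h := (hu0.const_mul 6).mul hexp
    rw [mul_zero, zero_mul] at h
    exact h.congr (fun m => (hqe m).symm)
  have hqpos : ∀ᶠ m in atTop, 0 < q m := by
    filter_upwards [eventually_ge_atTop 1] with m hm
    have : (0:ℝ) < m := by exact_mod_cast hm
    have := htpos m
    simp only [hq]; positivity
  set j : ℕ → ℤ := fun m => 2 * ⌊τ1 / (2 * q m)⌋ + e1 with hj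
  set l : ℕ → ℤ := fun m => j m * (2 * m) + e2 with hl
  have hjq : Tendsto (fun m => (j m : ℝ) * q m) atTop (𝓝 τ1) := floor_lim hq0 hqpos τ1 e1
  have hjt : Tendsto (fun m => (j m : ℝ) * t m) atTop (𝓝 0) := by
    have h1 : Tendsto (fun m : ℕ => (1:ℝ) / (2 * m)) atTop (𝓝 0) := by
      apply Tendsto.const_div_atTop
      exact tendsto_natCast_atTop_atTop.const_mul_atTop (by norm_num)
    have h2 := hjq.mul h1
    rw [mul_zero] at h2
    refine h2.congr' ?_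
    filter_upwards [eventually_ge_atTop 1] with m hm
    have : (0:ℝ) < m := by exact_mod_cast hm
    simp only [hq]
    field_simp
  have s1 := slope_of φ1_deriv (by unfold φ1; rw [sf_zero]; norm_num) ht0 htpos
  have s2 := slope_of φ2_deriv (by unfold φ2; rw [sf_zero]; norm_num) ht0 htpos
  have s3 := slope_of φ3_deriv (by unfold φ3; rw [sf_zero]; norm_num) ht0 htpos
  have s4 := slope_of φ4_deriv (by unfold φ4; rw [sf_zero]; norm_num) ht0 htpos
  have hlt : Tendsto (fun m => (l m : ℝ) * t m) atTop (𝓝 τ1) := by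
    have h := hjq.add (ht0.const_mul (e2:ℝ))
    rw [mul_zero, add_zero] at h
    refine h.congr (fun m => ?_)
    simp only [hl, hq]; push_cast; ring
  refine ⟨t, j, l, ht0, htpos, fun m => ⟨_, rfl⟩, fun m => ⟨j m * m, by simp only [hl]; ring⟩, ?_, ?_⟩
  · have h := (hjt.mul s1).add (hlt.mul s2)
    rw [zero_mul, zero_add, mul_one] at h
    refine h.congr (fun m => ?_)
    have := (htpos m).ne'
    field_simp
  · have h := (((hjq.mul hexp2).const_mul ρ).add (hjt.mul s3)).add ((hlt.mul s4).sub_const (e2 * Real.log 2))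
    have e : ρ * (τ1 * 1) + 0 * 0 + (τ1 * (1 / 2) - e2 * Real.log 2) = τ2 := by
      rw [hρ]; field_simp; ring
    rw [e] at h
    refine h.congr (fun m => ?_)
    have hne := (htpos m).ne'
    have hlog : Real.log (t m) = Real.log 3 - 2 * m * Real.log 2 - 6 * ρ * u m := by
      simp only [ht]
      rw [Real.log_mul (by positivity) (by positivity), Real.log_mul (by norm_num) (by positivity),
        Real.log_pow, Real.log_exp]
      rw [show (1/4:ℝ) = (2 ^ 2)⁻¹ by norm_num, Real.log_inv, Real.log_pow]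
      push_cast; ring
    have h1 : (j m : ℝ) * q m * Real.exp (6 * ρ * u m) = (j m : ℝ) * (6 * u m) := by
      rw [hqe]
      have : Real.exp (-(6 * ρ * u m)) * Real.exp (6 * ρ * u m) = 1 := by
        rw [← Real.exp_add]; simp
      linear_combination (j m : ℝ) * (6 * u m) * this
    rw [h1, hlog]
    have h3 : (j m : ℝ) * t m * (φ3 (t m) / t m) = j m * φ3 (t m) := by field_simp
    have h4 : (l m : ℝ) * t m * (φ4 (t m) / t m) = l m * φ4 (t m) := by field_simp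
    rw [h3, h4]
    unfold φ3 φ4
    simp only [hl]
    push_cast
    ring

lemma neg_zpow_exp {x : ℝ} (hx : 0 < x) {k r e : ℤ} (h : k = 2 * r + e) :
    (-x) ^ k = (-1) ^ e * Real.exp (k * Real.log x) := by
  have h1 : Real.exp (k * Real.log x) = x ^ k := by
    rw [← Real.rpow_intCast, Real.rpow_def_of_pos hx, mul_comm]
  have h2 : ((-1:ℝ)) ^ k = (-1) ^ e := by
    rw [h, zpow_add₀ (by norm_num), zpow_mul]
    norm_num
  rw [h1, ← h2, ← mul_zpow, neg_one_mul]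

lemma zpow_exp {x : ℝ} (hx : 0 < x) (k : ℤ) : x ^ k = Real.exp (k * Real.log x) := by
  rw [← Real.rpow_intCast, Real.rpow_def_of_pos hx, mul_comm]

lemma good_generic' {τ1 τ2 : ℝ} (hτ : τ1 ≠ 0) (e1 e2 : ℤ) :
    Good (-((-1) ^ e1 * Real.exp τ1)) (-((-1) ^ e2 * Real.exp τ2)) := by
  apply good_of_approx
  intro δ hδ
  obtain ⟨t, j, l, ht0, htpos, hj, hl, L1, L2⟩ := key_lim (τ2 := τ2) hτ e1 e2
  have M1 : Tendsto (fun m => -((-1:ℝ) ^ e1 * Real.exp ((j m : ℝ) * φ1 (t m) + l m * φ2 (t m)))) atTop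
      (𝓝 (-((-1) ^ e1 * Real.exp τ1))) :=
    (((Real.continuous_exp.tendsto _).comp L1).const_mul _).neg
  have M2 : Tendsto (fun m => -((-1:ℝ) ^ e2 * Real.exp ((j m : ℝ) * (Real.log (3 + sf (t m) - t m) - Real.log (t m)) +
        l m * (Real.log (1 + sf (t m) - t m) - Real.log (2 - t m))))) atTop
      (𝓝 (-((-1) ^ e2 * Real.exp τ2))) :=
    (((Real.continuous_exp.tendsto _).comp L2).const_mul _).neg
  obtain ⟨m, ⟨hm1, hm2⟩, hm3⟩ := (((Metric.tendsto_nhds.mp M1 δ hδ).and (Metric.tendsto_nhds.mp M2 δ hδ)).and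
    (ht0.eventually_le_const (show (0:ℝ) < 1 by norm_num))).exists
  obtain ⟨r1, hr1⟩ := hj m
  obtain ⟨r2, hr2⟩ := hl m
  have p := sf_pos (htpos m) hm3
  have q := sf_lt (htpos m) hm3
  have htm := htpos m
  have a1 : 0 < 3 - t m := by linarith
  have a2 : 0 < 3 + sf (t m) - t m := by linarith
  have a3 : 0 < 2 + sf (t m) := by linarith
  have a4 : 0 < 2 - t m := by linarith
  have a5 : 0 < 1 + sf (t m) - t m := by linarith
  have g := good_t htm hm3 (j m) (l m)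
  rw [neg_zpow_exp (div_pos a1 a2) hr1, zpow_exp (div_pos a3 a4), neg_zpow_exp (div_pos a5 a4) hr2,
    zpow_exp (div_pos a2 htm), Real.log_div a1.ne' a2.ne', Real.log_div a3.ne' a4.ne',
    Real.log_div a5.ne' a4.ne', Real.log_div a2.ne' htm.ne'] at g
  refine ⟨_, _, g, ?_, ?_⟩
  · rw [Real.dist_eq] at hm1
    have e : (-1:ℝ) ^ e1 * Real.exp (↑(j m) * (Real.log (3 - t m) - Real.log (3 + sf (t m) - t m))) *
        Real.exp (↑(l m) * (Real.log (2 + sf (t m)) - Real.log (2 - t m))) =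
        (-1:ℝ) ^ e1 * Real.exp ((j m : ℝ) * φ1 (t m) + l m * φ2 (t m)) := by
      rw [Real.exp_add]; unfold φ1 φ2; ring
    rw [e]; exact hm1
  · rw [Real.dist_eq] at hm2
    have e : Real.exp (↑(j m) * (Real.log (3 + sf (t m) - t m) - Real.log (t m))) *
        ((-1:ℝ) ^ e2 * Real.exp (↑(l m) * (Real.log (1 + sf (t m) - t m) - Real.log (2 - t m)))) =
        (-1:ℝ) ^ e2 * Real.exp ((j m : ℝ) * (Real.log (3 + sf (t m) - t m) - Real.log (t m)) +
        l m * (Real.log (1 + sf (t m) - t m) - Real.log (2 - t m))) := by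
      rw [Real.exp_add]; ring
    rw [e]; exact hm2

lemma sign_form {A : ℝ} (hA : A ≠ 0) : ∃ e : ℤ, A = -((-1) ^ e * Real.exp (Real.log |A|)) := by
  rw [Real.exp_log (abs_pos.mpr hA)]
  rcases lt_or_gt_of_ne hA with h | h
  · exact ⟨0, by rw [abs_of_neg h]; simp⟩
  · exact ⟨1, by rw [abs_of_pos h]; simp⟩

lemma good_generic {A C : ℝ} (h0 : A ≠ 0) (h1 : A ≠ 1) (h2 : A ≠ -1) (hC : C ≠ 0) : Good A C := by
  obtain ⟨e1, he1⟩ := sign_form h0
  obtain ⟨e2, he2⟩ := sign_form hC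
  have hτ : Real.log |A| ≠ 0 := by
    apply Real.log_ne_zero_of_pos_of_ne_one (abs_pos.mpr h0)
    intro h
    rcases abs_eq (by norm_num : (0:ℝ) ≤ 1) |>.mp h with h | h
    · exact h1 h
    · exact h2 h
  rw [he1, he2]
  exact good_generic' hτ e1 e2

lemma good_all (A C : ℝ) : Good A C := by
  apply good_of_approx
  intro δ hδ
  have d1 : Dense (({0, 1, -1} : Set ℝ)ᶜ) := (Set.toFinite _).countable.dense_compl ℝ
  have d2 : Dense (({0} : Set ℝ)ᶜ) := (Set.toFinite _).countable.dense_compl ℝ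
  obtain ⟨A', hA1, hA2⟩ := d1.exists_dist_lt A hδ
  obtain ⟨C', hC1, hC2⟩ := d2.exists_dist_lt C hδ
  simp only [mem_compl_iff, mem_insert_iff, mem_singleton_iff, not_or] at hA1 hC1
  refine ⟨A', C', good_generic hA1.1 hA1.2.1 hA1.2.2 hC1, ?_, ?_⟩
  · rw [← Real.dist_eq, dist_comm]; exact hA2
  · rw [← Real.dist_eq, dist_comm]; exact hC2

lemma exists_antider (w : ℝ[X]) : ∃ P : ℝ[X], derivative P = w := by
  induction w using Polynomial.induction_on' with
  | add p q hp hq =>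
    obtain ⟨P, hP⟩ := hp
    obtain ⟨Q, hQ⟩ := hq
    exact ⟨P + Q, by rw [derivative_add, hP, hQ]⟩
  | monomial n a =>
    refine ⟨monomial (n + 1) (a / (n + 1)), ?_⟩
    rw [derivative_monomial]
    have : ((n:ℝ) + 1) ≠ 0 := by positivity
    push_cast
    rw [div_mul_cancel₀ _ this]

lemma J_eq (u v : ℝ) (P : ℝ[X]) : J u v (derivative P) = P.eval v - P.eval u := by
  unfold J
  exact intervalIntegral.integral_eq_sub_of_hasDerivAt (fun x _ => P.hasDerivAt x)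
    ((derivative P).continuous.intervalIntegrable _ _)

lemma approx (v1 v2 v3 v4 : ℝ) {ε : ℝ} (hε : 0 < ε) : ∃ p : ℝ[X],
    (∀ z : ℂ, aeval z (derivative p) = 0 → z = ((-2:ℝ):ℂ) ∨ z = ((-1:ℝ):ℂ) ∨ z = ((1:ℝ):ℂ) ∨ z = ((2:ℝ):ℂ)) ∧
    |v1 - p.eval (-2)| < ε ∧ |v2 - p.eval (-1)| < ε ∧ |v3 - p.eval 1| < ε ∧ |v4 - p.eval 2| < ε := by
  -- first the nondegenerate case
  have main : ∀ (v1 v2 v3 v4 : ℝ), v3 ≠ v2 → ∀ ε > 0, ∃ p : ℝ[X],
    (∀ z : ℂ, aeval z (derivative p) = 0 → z = ((-2:ℝ):ℂ) ∨ z = ((-1:ℝ):ℂ) ∨ z = ((1:ℝ):ℂ) ∨ z = ((2:ℝ):ℂ)) ∧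
    |v1 - p.eval (-2)| < ε ∧ |v2 - p.eval (-1)| < ε ∧ |v3 - p.eval 1| < ε ∧ |v4 - p.eval 2| < ε := by
    intro v1 v2 v3 v4 hne ε hε
    have hD : v3 - v2 ≠ 0 := sub_ne_zero.mpr hne
    have hDpos : 0 < |v3 - v2| := abs_pos.mpr hD
    obtain ⟨w, hw, h0, h1, h2⟩ := good_all ((v2 - v1) / (v3 - v2)) ((v4 - v3) / (v3 - v2))
      (ε / (2 * |v3 - v2|)) (by positivity)
    obtain ⟨P, hP⟩ := exists_antider w
    rw [← hP] at h0 h1 h2 hw
    set c := (v3 - v2) / J (-1) 1 (derivative P) with hc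
    have hc0 : c ≠ 0 := div_ne_zero hD h0
    set p : ℝ[X] := Polynomial.C c * P + Polynomial.C (v1 - c * P.eval (-2)) with hp
    have hpe : ∀ x, p.eval x = c * P.eval x + (v1 - c * P.eval (-2)) := by
      intro x; simp [hp]
    have hder : derivative p = Polynomial.C c * derivative P := by
      simp [hp]
    have i1 := J_eq (-2) (-1) P
    have i2 := J_eq (-1) 1 P
    have i3 := J_eq 1 2 P
    have k2 : c * J (-1) 1 (derivative P) = v3 - v2 := by rw [hc]; field_simp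
    have k1 : |c * J (-2) (-1) (derivative P) - (v2 - v1)| < ε / 2 := by
      have e : c * J (-2) (-1) (derivative P) - (v2 - v1) =
          (v3 - v2) * (J (-2) (-1) (derivative P) / J (-1) 1 (derivative P) - (v2 - v1) / (v3 - v2)) := by
        rw [hc]; field_simp
      rw [e, abs_mul]
      calc |v3 - v2| * _ < |v3 - v2| * (ε / (2 * |v3 - v2|)) := mul_lt_mul_of_pos_left h1 hDpos
        _ = ε / 2 := by field_simp
    have k3 : |c * J 1 2 (derivative P) - (v4 - v3)| < ε / 2 := by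
      have e : c * J 1 2 (derivative P) - (v4 - v3) =
          (v3 - v2) * (J 1 2 (derivative P) / J (-1) 1 (derivative P) - (v4 - v3) / (v3 - v2)) := by
        rw [hc]; field_simp
      rw [e, abs_mul]
      calc |v3 - v2| * _ < |v3 - v2| * (ε / (2 * |v3 - v2|)) := mul_lt_mul_of_pos_left h2 hDpos
        _ = ε / 2 := by field_simp
    rw [i1] at k1
    rw [i2] at k2
    rw [i3] at k3
    rw [abs_lt] at k1 k3
    refine ⟨p, ?_, ?_, ?_, ?_, ?_⟩
    · intro z hz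
      apply hw z
      rw [hder, map_mul, aeval_C] at hz
      rcases mul_eq_zero.mp hz with h | h
      · exfalso
        apply hc0
        have : ((c:ℝ):ℂ) = 0 := h
        exact_mod_cast this
      · exact h
    · rw [hpe, abs_lt]; constructor <;> linarith
    · rw [hpe, abs_lt]; constructor <;> linarith
    · rw [hpe, abs_lt]; constructor <;> linarith
    · rw [hpe, abs_lt]; constructor <;> linarith
  by_cases h : v3 = v2
  · obtain ⟨p, hp, h1, h2, h3, h4⟩ := main v1 v2 (v3 + ε / 2) v4 (by rw [h]; intro h'; linarith) (ε / 2) (half_pos hε)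
    refine ⟨p, hp, by linarith, by linarith, ?_, by linarith⟩
    rw [abs_lt] at h3 ⊢
    constructor <;> linarith
  · exact main v1 v2 v3 v4 h ε hε

lemma CP_four : CP ({-2, -1, 1, 2} : Set ℝ) = Set.univ := by
  rw [Set.eq_univ_iff_forall]
  intro f ε hε
  obtain ⟨p, hp, h1, h2, h3, h4⟩ := approx (f ⟨-2, by simp⟩) (f ⟨-1, by simp⟩) (f ⟨1, by simp⟩) (f ⟨2, by simp⟩) hε
  refine ⟨p, ?_, ?_⟩
  · intro z hz
    rcases hp z hz with h | h | h | h
    · exact ⟨-2, by simp, h⟩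
    · exact ⟨-1, by simp, h⟩
    · exact ⟨1, by simp, h⟩
    · exact ⟨2, by simp, h⟩
  · rintro ⟨x, hx⟩
    rcases hx with rfl | rfl | rfl | rfl
    · exact h1
    · exact h2
    · exact h3
    · exact h4

/-- The four-point set `{-2, -1, 1, 2}` is compact and disconnected, and every continuous real function
on it is a uniform limit of real polynomials all of whose critical points lie in the set. -/
theorem result : IsCompact ({-2, -1, 1, 2} : Set ℝ) ∧ ¬ IsPreconnected ({-2, -1, 1, 2} : Set ℝ) ∧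
    ({-2, -1, 1, 2} : Set ℝ).encard = 4 ∧ CP ({-2, -1, 1, 2} : Set ℝ) = Set.univ := by
  refine ⟨(Set.toFinite _).isCompact, ?_, ?_, CP_four⟩
  · intro hc
    have h0 : (0:ℝ) ∈ ({-2, -1, 1, 2} : Set ℝ) :=
      hc.Icc_subset (a := -1) (b := 1) (by simp) (by simp) ⟨by norm_num, by norm_num⟩
    simp at h0
  · rw [Set.encard_insert_of_notMem (by norm_num), Set.encard_insert_of_notMem (by norm_num),
      Set.encard_insert_of_notMem (by norm_num), Set.encard_singleton]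
    norm_num

end Pool.Agent.Results.MP_57aba6_an.FourPoints
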